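import Pool.Agent.H59.L.S8.Y67.DT.Move

/-!
# Strong uniformization of the base (project DT of helper176, written by helper67)
-/

set_option autoImplicit false
set_option linter.unusedVariables false
set_option linter.unusedSectionVars false

universe u

namespace Pool.Agent.Y67.DT

open Pool.Agent.W418.LU2 IsLocalRing Pool.Agent.H176.DT

/-- **DT-BASE.** -/
theorem base' (h : S_ref.{u}) : S_base.{u} := by
  intro E _ W R _ hM hLU G hG hG0
  obtain ⟨hRW, hfr⟩ := hM
  obtain ⟨Wb, fb, n, x, hWbf, hfbR, hfb0, hWb, hx, hreg, hfb, hGm⟩ :=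
    base W R hRW hfr hLU G hG hG0
  have key : ∀ z ∈ Subring.closure ((R : Set E) ∪ Wb), ∃ k : ℕ, fb ^ k * z ∈ R :=
    closure_pow hfbR fun w hw => ⟨1, by rw [pow_one, mul_comm]; exact (hWb w hw).2⟩
  obtain ⟨k, hk⟩ := common_pow hfbR key (Z := Wb ∪ Set.range x)
    (hWbf.union (Set.finite_range _)) (by
      rintro z (hz | ⟨i, rfl⟩)
      · exact Subring.subset_closure (Or.inr hz)
      · exact hx i)
  have hst : St W R Wb x :=
    ⟨hWbf, hreg, fb ^ k, R.pow_mem hfbR k, hfb.pow hreg.ne k, fun t ht => hk t (Or.inl ht),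
      fun i => hk _ (Or.inr ⟨i, rfl⟩)⟩
  obtain ⟨T', x', -, hst', -, -, hPM, hmem⟩ := h W R Wb x hst G hG hGm
  exact ⟨T', n, x', hst', fun g hg => ⟨hPM g (hGm g hg), hmem g hg⟩⟩

/-- **DT-NOE.** -/
theorem noe : S_noe.{u} := by
  intro F _ R _ U hU
  have : Finite U := hU
  let f : MvPolynomial U R →+* F := MvPolynomial.eval₂Hom R.subtype Subtype.val
  have h1 : Subring.closure ((R : Set F) ∪ U) = f.range := by
    apply le_antisymm
    · rw [Subring.closure_le]
      rintro z (hz | hz)
      · exact ⟨MvPolynomial.C ⟨z, hz⟩, MvPolynomial.eval₂_C _ _ _⟩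
      · exact ⟨MvPolynomial.X ⟨z, hz⟩, MvPolynomial.eval₂_X _ _ _⟩
    · rintro _ ⟨p, rfl⟩
      induction p using MvPolynomial.induction_on with
      | C a =>
        have h2 : f (MvPolynomial.C a) = (a : F) := MvPolynomial.eval₂_C _ _ _
        rw [h2]
        exact Subring.subset_closure (Or.inl a.2)
      | add p q hp hq =>
        rw [map_add]
        exact Subring.add_mem _ hp hq
      | mul_X p i hp =>
        rw [map_mul]
        have h2 : f (MvPolynomial.X i) = (i : F) := MvPolynomial.eval₂_X _ _ _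
        rw [h2]
        exact Subring.mul_mem _ hp (Subring.subset_closure (Or.inr i.2))
  rw [h1]
  exact isNoetherianRing_range f

end Pool.Agent.Y67.DT
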