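import Pool.Agent.H59.L.S8.H176.DT.Stm

/-!
# Cutting out equations, transcendence of the variables
(project DT of helper176, written by helper67; adapted from `Pool.Agent.W418.LU2.Main`)
-/

set_option autoImplicit false
set_option linter.unusedVariables false
set_option linter.unusedSectionVars false

universe u

namespace Pool.Agent.Y67.DT

open Pool.Agent.W418.LU2 IsLocalRing Polynomial Pool.Agent.H176.DT

/-- **DT-ALG.** -/
theorem alg : S_alg.{u} := by
  intro E _ Θ _ A C U θ hθ g hg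
  let L : Subalgebra E (FF E Θ) := Algebra.adjoin E (Zc E '' U)
  have htr : Transcendental L (Zc E θ) := indep_Z.transcendental_adjoin (s := U) (i := θ) hθ
  refine trans_of L _ (fun z hz => ?_) htr g hg
  refine lo_fr (L := L.toSubring) ?_ hz
  rintro u (⟨e, he, rfl⟩ | ⟨θ', hθ', rfl⟩)
  · apply le_fr
    change emb E Θ e ∈ L
    rw [emb_alg]
    exact L.algebraMap_mem e
  · exact le_fr _ (Algebra.subset_adjoin ⟨θ', hθ', rfl⟩)

/-- **DT-CUT.** -/
theorem cut : S_cut.{u} := by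
  classical
  intro E K _ _ _ Θ _ y V C hC hCE hyV hregP κ σ _ _ Y e hind he0 x hYx hx0 hfr htr
  have hSA : Subring.closure ((C.map (emb E Θ) : Set (FF E Θ)) ∪ Set.range (Zc E)) ≤ AT E y V := by
    rw [Subring.closure_le]
    rintro z (⟨c, hc, rfl⟩ | ⟨θ, rfl⟩)
    · exact (emb_mem V c).2 (hC hc)
    · exact (Pr_Z y θ).mem_AA.2 (hyV θ)
  have hPA : RZ C y V ≤ AT E y V := lo_le hSA
  have hie : Ind e := hind.comp Sum.inr Sum.inr_injective
  have hCP : ∀ c ∈ C, emb E Θ c ∈ RZ C y V := fun c hc =>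
    le_lo _ _ (Subring.subset_closure (Or.inl ⟨c, hc, rfl⟩))
  have hZP : ∀ θ, Zc E θ ∈ RZ C y V := fun θ =>
    le_lo _ _ (Subring.subset_closure (Or.inr ⟨θ, rfl⟩))
  -- the denominators
  have hden : ∀ β : MvPolynomial Θ E, ∃ d ∈ RZ C y V, (∃ w, w ≠ 0 ∧ Pr (ph (E := E) y) d w) ∧
      d * algebraMap (MvPolynomial Θ E) (FF E Θ) β ∈ RZ C y V := by
    intro β
    induction β using MvPolynomial.induction_on with
    | C a =>
      obtain ⟨b, hb, hb0, hab⟩ := hCE a
      refine ⟨emb E Θ b, hCP b hb, ⟨_, (_root_.map_ne_zero _).2 hb0, Pr_emb y b⟩, ?_⟩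
      have h1 : emb E Θ b * algebraMap (MvPolynomial Θ E) (FF E Θ) (MvPolynomial.C a) =
          emb E Θ (a * b) := by
        rw [map_mul, mul_comm]
        rfl
      rw [h1]
      exact hCP _ hab
    | add a b ha hb =>
      obtain ⟨d, hd, ⟨w, hw, hdw⟩, h1⟩ := ha
      obtain ⟨d', hd', ⟨w', hw', hdw'⟩, h2⟩ := hb
      refine ⟨d * d', Subring.mul_mem _ hd hd', ⟨_, mul_ne_zero hw hw', hdw.mul hdw'⟩, ?_⟩
      have h3 : d * d' * algebraMap (MvPolynomial Θ E) (FF E Θ) (a + b) =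
          d' * (d * algebraMap (MvPolynomial Θ E) (FF E Θ) a) +
          d * (d' * algebraMap (MvPolynomial Θ E) (FF E Θ) b) := by
        rw [map_add]; ring
      rw [h3]
      exact Subring.add_mem _ (Subring.mul_mem _ hd' h1) (Subring.mul_mem _ hd h2)
    | mul_X a θ ha =>
      obtain ⟨d, hd, ⟨w, hw, hdw⟩, h1⟩ := ha
      refine ⟨d, hd, ⟨w, hw, hdw⟩, ?_⟩
      have h6 : d * algebraMap (MvPolynomial Θ E) (FF E Θ) (a * MvPolynomial.X θ) =
          (d * algebraMap (MvPolynomial Θ E) (FF E Θ) a) * Zc E θ := by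
        rw [map_mul, mul_assoc]
        rfl
      rw [h6]
      exact Subring.mul_mem _ h1 (hZP θ)
  -- the image in `K`
  let prP : RZ C y V →+* K := (prA (F := FF E Θ) (φ := ph (E := E) y) (V := V)).comp
    (Subring.inclusion hPA)
  have hprP : ∀ z : RZ C y V, Pr (ph (E := E) y) (z : FF E Θ) (prP z) := fun z =>
    prA_spec (Subring.inclusion hPA z)
  set B := Subring.closure ((C.map (algebraMap E K) : Set K) ∪ Set.range y) with hB
  have hBV : B ≤ V.toSubring := by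
    rw [hB, Subring.closure_le]
    rintro w (⟨c, hc, rfl⟩ | ⟨θ, rfl⟩)
    · exact hC hc
    · exact hyV θ
  -- lifting
  have hlift : ∀ b ∈ B, ∃ s ∈ Subring.closure ((C.map (emb E Θ) : Set (FF E Θ)) ∪
      Set.range (Zc E)), Pr (ph (E := E) y) s b := by
    intro b hb
    rw [hB] at hb
    induction hb using Subring.closure_induction with
    | mem b hb =>
      rcases hb with ⟨c, hc, rfl⟩ | ⟨θ, rfl⟩
      · exact ⟨_, Subring.subset_closure (Or.inl ⟨c, hc, rfl⟩), Pr_emb y c⟩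
      · exact ⟨Zc E θ, Subring.subset_closure (Or.inr ⟨θ, rfl⟩), Pr_Z y θ⟩
    | zero => exact ⟨0, Subring.zero_mem _, Pr.zero⟩
    | one => exact ⟨1, Subring.one_mem _, Pr.one⟩
    | add a b _ _ ha hb =>
      obtain ⟨s, hs, h⟩ := ha
      obtain ⟨s', hs', h'⟩ := hb
      exact ⟨_, Subring.add_mem _ hs hs', h.add h'⟩
    | neg a _ ha =>
      obtain ⟨s, hs, h⟩ := ha
      exact ⟨_, Subring.neg_mem _ hs, h.neg⟩
    | mul a b _ _ ha hb =>
      obtain ⟨s, hs, h⟩ := ha
      obtain ⟨s', hs', h'⟩ := hb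
      exact ⟨_, Subring.mul_mem _ hs hs', h.mul h'⟩
  have hdown : ∀ s ∈ Subring.closure ((C.map (emb E Θ) : Set (FF E Θ)) ∪ Set.range (Zc E)),
      ∃ b ∈ B, Pr (ph (E := E) y) s b := by
    intro s hs
    induction hs using Subring.closure_induction with
    | mem b hb =>
      rcases hb with ⟨c, hc, rfl⟩ | ⟨θ, rfl⟩
      · exact ⟨_, Subring.subset_closure (Or.inl ⟨c, hc, rfl⟩), Pr_emb y c⟩
      · exact ⟨y θ, Subring.subset_closure (Or.inr ⟨θ, rfl⟩), Pr_Z y θ⟩
    | zero => exact ⟨0, Subring.zero_mem _, Pr.zero⟩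
    | one => exact ⟨1, Subring.one_mem _, Pr.one⟩
    | add a b _ _ ha hb =>
      obtain ⟨s, hs, h⟩ := ha
      obtain ⟨s', hs', h'⟩ := hb
      exact ⟨_, Subring.add_mem _ hs hs', h.add h'⟩
    | neg a _ ha =>
      obtain ⟨s, hs, h⟩ := ha
      exact ⟨_, Subring.neg_mem _ hs, h.neg⟩
    | mul a b _ _ ha hb =>
      obtain ⟨s, hs, h⟩ := ha
      obtain ⟨s', hs', h'⟩ := hb
      exact ⟨_, Subring.mul_mem _ hs hs', h.mul h'⟩
  have hmemB : ∀ z : RZ C y V, prP z ∈ lo V.toSubring B := by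
    rintro ⟨z, hz⟩
    have hz' := hz
    obtain ⟨a, ha, b, hb, hb0, hbA, h1⟩ := hz'
    obtain ⟨a', ha', h2⟩ := hdown a ha
    obtain ⟨b', hb', h3⟩ := hdown b hb
    obtain ⟨w, hw, h4⟩ := hbA
    have h5 : b' * w = 1 := by
      have h6 := h3.mul h4
      rw [mul_inv_cancel₀ hb0] at h6
      exact h6.unique Pr.one
    have hb0' : b' ≠ 0 := left_ne_zero_of_mul_eq_one h5
    have h7 : w = b'⁻¹ := eq_inv_of_mul_eq_one_right h5
    refine ⟨a', ha', b', hb', hb0', ?_, ?_⟩
    · rw [← h7]; exact hw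
    · have h8 := hprP ⟨z, hz⟩
      refine h8.unique ?_
      change Pr _ z _
      rw [h1, ← h7]
      exact h2.mul h4
  let θ : RZ C y V →+* lo V.toSubring B := prP.codRestrict (lo V.toSubring B) hmemB
  have hθc : ∀ z, (θ z : K) = prP z := fun z => rfl
  have hsurj : Function.Surjective θ := by
    rintro ⟨w, a, ha, b, hb, hb0, hbV, hw⟩
    obtain ⟨s, hs, h1⟩ := hlift a ha
    obtain ⟨t, ht, h2⟩ := hlift b hb
    have h3 := h1.mul (h2.inv hb0)
    have h4 : s * t⁻¹ ∈ RZ C y V := by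
      refine ⟨s, hs, t, ht, h2.ne_zero hb0, ?_, rfl⟩
      exact ⟨_, hbV, h2.inv hb0⟩
    refine ⟨⟨_, h4⟩, Subtype.ext ?_⟩
    rw [hθc]
    change prP _ = w
    rw [hw]
    exact (hprP ⟨_, h4⟩).unique h3
  have hlocB : IsLocalRing (lo V.toSubring B) := isLocalRing_lo (loc_V V) hBV
  have hker : RingHom.ker θ = Ideal.span (Set.range e) := by
    apply le_antisymm
    · intro z hz
      refine ker_le hregP hPA hie he0 hden hfr htr z ?_
      have h1 : prP z = 0 := congrArg Subtype.val (RingHom.mem_ker.1 hz)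
      rw [← h1]
      exact hprP z
    · rw [Ideal.span_le]
      rintro _ ⟨k, rfl⟩
      refine RingHom.mem_ker.2 (Subtype.ext ?_)
      rw [hθc]
      exact (hprP (e k)).unique (he0 k)
  obtain ⟨h1, h2⟩ := quot_regular hind θ hsurj hker
  have hθx : ∀ i, (θ (Y i) : K) = x i := fun i => (hprP (Y i)).unique (hYx i)
  have hxm : ∀ i, x i ∈ lo V.toSubring B := fun i => by
    rw [← hθx]
    exact (θ _).2
  refine ⟨lo_le hBV, hx0, hxm, h1, fun z hz h0 h3 => inv_mem_lo hBV hz h0 h3, ?_⟩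
  have h3 : IndN (fun i => θ (Y i)) :=
    IndN.of_ind id Function.injective_id (fun i _ => ⟨i, rfl⟩) h2
  convert h3 using 1
  funext i
  exact Subtype.ext (hθx i).symm

end Pool.Agent.Y67.DT
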