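import Pool.Agent.H59.L.S8.H176.DT.Stm

/-!
# Stages with independent values (project DT of helper176, written by helper67)
-/

set_option autoImplicit false
set_option linter.unusedVariables false
set_option linter.unusedSectionVars false

universe u

namespace Pool.Agent.Y67.DT

open Pool.Agent.W418.LU2 IsLocalRing Pool.Agent.H176.DT

theorem indN_comp {B : Type u} [CommRing B] [IsLocalRing B] {ι κ : Type} [Fintype ι] [Fintype κ]
    {z : ι → B} (hz : IndN z) (f : κ → ι) (hf : Function.Injective f) :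
    IndN (fun k => z (f k)) := by
  classical
  intro c hc hs k
  have h := hz (Function.extend f c 0) ?_ ?_ (f k)
  · rwa [hf.extend_apply] at h
  · intro i hi
    by_cases h : ∃ k, f k = i
    · obtain ⟨k, rfl⟩ := h
      rw [hf.extend_apply]
      exact hc k hi
    · rw [Function.extend_apply' _ _ _ h]
      rfl
  · have h : ∑ k, c k * z (f k) = ∑ i, Function.extend f c 0 i * z i := by
      refine Fintype.sum_of_injective f hf _ _ ?_ ?_
      · intro i hi
        have h2 : ¬ ∃ k, f k = i := fun ⟨k, hk⟩ => hi ⟨k, hk⟩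
        rw [Function.extend_apply' _ _ _ h2]
        simp
      · intro k
        rw [hf.extend_apply]
    rw [← h]
    exact hs

section

variable {F : Type u} [Field F] {ι κ : Type} [Fintype ι] [Fintype κ]

theorem regP_comp {A P : Subring F} {x : ι → F} (h : RegP A P x) (f : κ → ι)
    (hf : Function.Injective f) : RegP A P (fun k => x (f k)) := by
  have hreg := h.reg
  exact ⟨h.PA, fun k => h.ne _, fun k => h.mem _, h.reg, h.inv, indN_comp h.ind f hf⟩

theorem mo_extend (x : ι → F) (f : κ → ι) (hf : Function.Injective f) (δ : κ → ℤ) :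
    mo (fun k => x (f k)) δ = mo x (Function.extend f δ 0) := by
  unfold mo
  refine Fintype.prod_of_injective f hf _ _ ?_ ?_
  · intro i hi
    have h2 : ¬ ∃ k, f k = i := fun ⟨k, hk⟩ => hi ⟨k, hk⟩
    rw [Function.extend_apply' _ _ _ h2]
    simp
  · intro k
    rw [hf.extend_apply]

theorem zpow_mem_P {P : Subring F} {a : F} (h1 : a ∈ P) (h2 : a⁻¹ ∈ P) (n : ℤ) : a ^ n ∈ P := by
  rcases n with n | n
  · rw [Int.ofNat_eq_natCast, zpow_natCast]
    exact P.pow_mem h1 n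
  · rw [zpow_negSucc, ← inv_pow]
    exact P.pow_mem h2 _

theorem mo_mem_unit {P : Subring F} {x : ι → F} {δ : ι → ℤ}
    (hx : ∀ i, δ i ≠ 0 → x i ∈ P ∧ (x i)⁻¹ ∈ P) : mo x δ ∈ P := by
  refine P.prod_mem fun i _ => ?_
  by_cases h : δ i = 0
  · rw [h, zpow_zero]
    exact P.one_mem
  · exact zpow_mem_P (hx i h).1 (hx i h).2 _

theorem mo_zsmul (x : ι → F) (c : ℤ) (δ : ι → ℤ) : mo x (c • δ) = (mo x δ) ^ c := by
  unfold mo
  rw [← Finset.prod_zpow]
  refine Finset.prod_congr rfl fun i _ => ?_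
  rw [Pi.smul_apply, smul_eq_mul, mul_comm, zpow_mul]

theorem mo_of_mo {x : ι → F} (hx : ∀ i, x i ≠ 0) {y : κ → F} (hy : ∀ k, ∃ γ, y k = mo x γ)
    (δ : κ → ℤ) : ∃ δ', mo y δ = mo x δ' := by
  classical
  unfold mo
  have key : ∀ s : Finset κ, ∃ δ' : ι → ℤ, ∏ k ∈ s, y k ^ δ k = mo x δ' := by
    intro s
    induction s using Finset.induction_on with
    | empty => exact ⟨0, by rw [Finset.prod_empty, mo_zero]⟩
    | insert a s ha ih =>
      obtain ⟨δ', h⟩ := ih
      obtain ⟨γ, hγ⟩ := hy a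
      refine ⟨δ a • γ + δ', ?_⟩
      rw [Finset.prod_insert ha, h, mo_add hx, mo_zsmul, hγ]
  exact key Finset.univ

theorem pmon_comp {P : Subring F} {x : ι → F} (hx : ∀ i, x i ≠ 0) (hm : ∀ i, x i ∈ P) (f : κ → ι)
    (hf : Function.Injective f) (hu : ∀ i, i ∉ Set.range f → (x i)⁻¹ ∈ P) {g : F}
    (hg : PMon P x g) : PMon P (fun k => x (f k)) g := by
  classical
  obtain ⟨u, u0, u1, u2, δ, rfl⟩ := hg
  set ε : ι → ℤ := Function.extend f (fun k => δ (f k)) 0 with hε
  have he : ∀ i, (δ - ε) i ≠ 0 → x i ∈ P ∧ (x i)⁻¹ ∈ P := by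
    intro i hi
    refine ⟨hm i, hu i ?_⟩
    rintro ⟨k, rfl⟩
    apply hi
    rw [Pi.sub_apply, hε, hf.extend_apply, sub_self]
  have he' : ∀ i, (-(δ - ε)) i ≠ 0 → x i ∈ P ∧ (x i)⁻¹ ∈ P := by
    intro i hi
    apply he i
    rw [Pi.neg_apply] at hi
    exact fun h => hi (by rw [h, neg_zero])
  have h1 : mo x δ = mo x (δ - ε) * mo x ε := by
    rw [← mo_add hx, sub_add_cancel]
  refine ⟨u * mo x (δ - ε), mul_ne_zero u0 (mo_ne_zero hx _), P.mul_mem u1 (mo_mem_unit he), ?_,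
    fun k => δ (f k), ?_⟩
  · rw [mul_inv, ← mo_neg]
    exact P.mul_mem u2 (mo_mem_unit he')
  · rw [mo_extend x f hf, h1, mul_assoc]

theorem pmon_of_comp {P : Subring F} {x : ι → F} (f : κ → ι)
    (hf : Function.Injective f) {g : F} (hg : PMon P (fun k => x (f k)) g) : PMon P x g := by
  obtain ⟨u, u0, u1, u2, δ, rfl⟩ := hg
  exact ⟨u, u0, u1, u2, _, by rw [mo_extend x f hf]⟩

end

/-- **DT-IND.** -/
theorem ind (h1 : S_ref.{u}) (h2 : S_expo.{u}) : S_ind.{u} := by
  classical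
  intro F _ V A hSU G hG hG0
  obtain ⟨T, n, x, hst, hgx⟩ := hSU G hG hG0
  have hx : ∀ i, x i ≠ 0 := hst.reg.ne
  -- the lattice of the monomials of value one
  let Λ : AddSubgroup (Fin n → ℤ) :=
    { carrier := {δ | V.valuation (mo x δ) = 1}
      add_mem' := by
        intro a b ha hb
        change V.valuation (mo x (a + b)) = 1
        rw [mo_add hx, map_mul]
        rw [Set.mem_setOf_eq] at ha hb
        rw [ha, hb, one_mul]
      zero_mem' := by
        change V.valuation (mo x 0) = 1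
        rw [mo_zero, map_one]
      neg_mem' := by
        intro a ha
        change V.valuation (mo x (-a)) = 1
        rw [Set.mem_setOf_eq] at ha
        rw [mo_neg, map_inv₀, ha, inv_one] }
  have hΛ : ∀ δ, δ ∈ Λ ↔ V.valuation (mo x δ) = 1 := fun δ => Iff.rfl
  obtain ⟨Δ, hΔ⟩ := IsNoetherian.noetherian (AddSubgroup.toIntSubmodule Λ)
  have hΔΛ : ∀ δ ∈ Δ, δ ∈ Λ := by
    intro δ hδ
    have h3 : δ ∈ AddSubgroup.toIntSubmodule Λ := by
      rw [← hΔ]
      exact Submodule.subset_span hδ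
    exact h3
  obtain ⟨T', x', hTT, hst', hRef, hx'm, hPM, hmem⟩ := h1 V A T x hst
    ((fun δ => mo x δ) '' (Δ : Set (Fin n → ℤ)) ∪ (fun δ => mo x (-δ)) '' (Δ : Set (Fin n → ℤ)) ∪ G)
    (((Δ.finite_toSet.image _).union (Δ.finite_toSet.image _)).union hG) (by
      rintro g ((⟨δ, -, rfl⟩ | ⟨δ, -, rfl⟩) | hg)
      · exact PMon.of_mo δ
      · exact PMon.of_mo (-δ)
      · exact (hgx g hg).1)
  have hunit : ∀ δ ∈ Λ, mo x δ ∈ PP V A T' ∧ (mo x δ)⁻¹ ∈ PP V A T' := by
    intro δ hδ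
    have h3 : δ ∈ Submodule.span ℤ (Δ : Set (Fin n → ℤ)) := by
      rw [hΔ]
      exact hδ
    induction h3 using Submodule.span_induction with
    | mem δ hd =>
      have h4 := (hΛ δ).1 (hΔΛ δ hd)
      refine ⟨hmem _ (Or.inl (Or.inl ⟨δ, hd, rfl⟩)) ?_, ?_⟩
      · rw [← V.valuation_le_one_iff]
        exact h4.le
      · rw [← mo_neg]
        refine hmem _ (Or.inl (Or.inr ⟨δ, hd, rfl⟩)) ?_
        rw [← V.valuation_le_one_iff, mo_neg, map_inv₀, h4, inv_one]
    | zero =>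
      rw [mo_zero, inv_one]
      exact ⟨Subring.one_mem _, Subring.one_mem _⟩
    | add a b ha hb iha ihb =>
      have ha' : a ∈ Λ := by
        have h5 : a ∈ AddSubgroup.toIntSubmodule Λ := by rw [← hΔ]; exact ha
        exact h5
      have hb' : b ∈ Λ := by
        have h5 : b ∈ AddSubgroup.toIntSubmodule Λ := by rw [← hΔ]; exact hb
        exact h5
      rw [mo_add hx, mul_inv]
      exact ⟨Subring.mul_mem _ (iha ha').1 (ihb hb').1, Subring.mul_mem _ (iha ha').2 (ihb hb').2⟩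
    | smul c a ha iha =>
      have ha' : a ∈ Λ := by
        have h5 : a ∈ AddSubgroup.toIntSubmodule Λ := by rw [← hΔ]; exact ha
        exact h5
      rw [mo_zsmul, ← inv_zpow]
      exact ⟨zpow_mem_P (iha ha').1 (iha ha').2 _,
        zpow_mem_P (iha ha').2 (by rw [inv_inv]; exact (iha ha').1) _⟩
  have hclaim : ∀ δ : Fin n → ℤ, V.valuation (mo x' δ) = 1 → ∀ i, (x' i)⁻¹ ∉ V → δ i = 0 := by
    intro δ hδ i hi
    obtain ⟨δ', hδ'⟩ := mo_of_mo hx hx'm δ
    have h3 := hunit δ' ((hΛ δ').2 (by rw [← hδ']; exact hδ))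
    rw [← hδ'] at h3
    have h4 := h2 hst'.reg δ h3.1 i hi
    have h5 := h2 hst'.reg (-δ) (by rw [mo_neg]; exact h3.2) i hi
    rw [Pi.neg_apply] at h5
    omega
  -- drop the units
  let e : Fin (Fintype.card {i : Fin n // (x' i)⁻¹ ∉ V}) ≃ {i : Fin n // (x' i)⁻¹ ∉ V} :=
    (Fintype.equivFin _).symm
  let f : Fin (Fintype.card {i : Fin n // (x' i)⁻¹ ∉ V}) → Fin n := fun j => (e j).1
  have hf : Function.Injective f := Subtype.val_injective.comp e.injective
  have hfu : ∀ i, i ∉ Set.range f → (x' i)⁻¹ ∈ PP V A T' := by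
    intro i hi
    refine hst'.reg.inv _ (hst'.reg.mem i) (hst'.reg.ne i) ?_
    by_contra h3
    exact hi ⟨e.symm ⟨i, h3⟩, by simp [f]⟩
  have hPMf : ∀ g, PMon (PP V A T') x' g → PMon (PP V A T') (fun j => x' (f j)) g := fun g hg =>
    pmon_comp hst'.reg.ne hst'.reg.mem f hf hfu hg
  refine ⟨T', _, fun j => x' (f j), ⟨hst'.fin, regP_comp hst'.reg f hf, ?_⟩, fun j => (e j).2, ?_, ?_⟩
  · obtain ⟨β, hβA, hβ, hβT, hβx⟩ := hst'.den
    exact ⟨β, hβA, hPMf β hβ, hβT, fun j => hβx _⟩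
  · intro δ hδ
    rw [mo_extend x' f hf] at hδ
    funext j
    have h3 := hclaim _ hδ (f j) (e j).2
    rwa [hf.extend_apply] at h3
  · intro g hg
    exact ⟨hPMf g (hPM g (hgx g hg).1), hmem g (Or.inr hg)⟩

end Pool.Agent.Y67.DT
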