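import Pool.Agent.H59.L.S8.H176.DT.Stm

/-!
# Independence of the model (project DT of helper176, written by helper67)
-/

set_option autoImplicit false
set_option linter.unusedVariables false
set_option linter.unusedSectionVars false

universe u

namespace Pool.Agent.Y67.DT

open Pool.Agent.W418.LU2 IsLocalRing Pool.Agent.H176.DT

/-- a common power for finitely many elements -/
theorem common_pow {F : Type u} [Field F] {A A' : Subring F} {Q : F} (hQ : Q ∈ A)
    (key : ∀ z ∈ A', ∃ k : ℕ, Q ^ k * z ∈ A) {Z : Set F} (hZ : Z.Finite) (hZA : ∀ z ∈ Z, z ∈ A') :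
    ∃ k : ℕ, ∀ z ∈ Z, Q ^ k * z ∈ A := by
  induction Z, hZ using Set.Finite.induction_on with
  | empty => exact ⟨0, fun z hz => hz.elim⟩
  | @insert a Z ha hZ ih =>
    obtain ⟨k, hk⟩ := ih fun z hz => hZA z (Set.mem_insert_of_mem _ hz)
    obtain ⟨l, hl⟩ := key a (hZA a (Set.mem_insert _ _))
    refine ⟨k + l, ?_⟩
    rintro z (rfl | hz)
    · rw [pow_add, mul_assoc]
      exact A.mul_mem (A.pow_mem hQ _) hl
    · rw [pow_add, mul_comm (Q ^ k), mul_assoc]
      exact A.mul_mem (A.pow_mem hQ _) (hk z hz)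

theorem pmon_prod {F : Type u} [Field F] {ι : Type} [Fintype ι] {κ : Type u} {P : Subring F}
    {x : ι → F} (hx : ∀ i, x i ≠ 0) (s : Finset κ) {g : κ → F} (hg : ∀ i ∈ s, PMon P x (g i)) :
    PMon P x (∏ i ∈ s, g i) := by
  classical
  induction s using Finset.induction_on with
  | empty => simpa using PMon.one
  | insert a s ha ih =>
    rw [Finset.prod_insert ha]
    exact (hg a (Finset.mem_insert_self _ _)).mul hx
      (ih fun i hi => hg i (Finset.mem_insert_of_mem hi))

/-- powers of the denominator -/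
theorem closure_pow {F : Type u} [Field F] {A : Subring F} {U : Set F} {Q : F} (hQA : Q ∈ A)
    (hU : ∀ u ∈ U, ∃ k : ℕ, Q ^ k * u ∈ A) :
    ∀ z ∈ Subring.closure ((A : Set F) ∪ U), ∃ k : ℕ, Q ^ k * z ∈ A := by
  intro z hz
  induction hz using Subring.closure_induction with
  | mem z hz =>
    rcases hz with hz | hz
    · exact ⟨0, by rw [pow_zero, one_mul]; exact hz⟩
    · exact hU z hz
  | zero => exact ⟨0, by rw [mul_zero]; exact A.zero_mem⟩
  | one => exact ⟨0, by rw [pow_zero, one_mul]; exact A.one_mem⟩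
  | add a b _ _ ha hb =>
    obtain ⟨k, hk⟩ := ha
    obtain ⟨l, hl⟩ := hb
    refine ⟨k + l, ?_⟩
    have h3 : Q ^ (k + l) * (a + b) = Q ^ l * (Q ^ k * a) + Q ^ k * (Q ^ l * b) := by
      rw [pow_add]
      ring
    rw [h3]
    exact A.add_mem (A.mul_mem (A.pow_mem hQA _) hk) (A.mul_mem (A.pow_mem hQA _) hl)
  | neg a _ ha =>
    obtain ⟨k, hk⟩ := ha
    refine ⟨k, ?_⟩
    rw [mul_neg]
    exact A.neg_mem hk
  | mul a b _ _ ha hb =>
    obtain ⟨k, hk⟩ := ha
    obtain ⟨l, hl⟩ := hb
    refine ⟨k + l, ?_⟩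
    have h3 : Q ^ (k + l) * (a * b) = (Q ^ k * a) * (Q ^ l * b) := by
      rw [pow_add]
      ring
    rw [h3]
    exact A.mul_mem hk hl

/-- **DT-MOVE.** -/
theorem move : S_move.{u} := by
  classical
  intro F _ V A hM U hU hUV
  obtain ⟨hAV, hfr⟩ := hM
  have hAA' : A ≤ Subring.closure ((A : Set F) ∪ U) := fun a ha => Subring.subset_closure (Or.inl ha)
  constructor
  · intro h G hG hG0
    obtain ⟨T, n, x, hst, hgx⟩ := h (G ∪ (U \ {0})) (hG.union (hU.subset Set.diff_subset)) (by
      rintro g (hg | hg)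
      · exact hG0 g hg
      · exact hg.2)
    have hUP : ∀ u ∈ U, u ∈ PP V A T := by
      intro u hu
      by_cases h0 : u = 0
      · rw [h0]
        exact Subring.zero_mem _
      · exact (hgx u (Or.inr ⟨hu, h0⟩)).2 (hUV u hu)
    have hBV : Subring.closure ((A : Set F) ∪ T) ≤ V.toSubring := (le_lo _ _).trans hst.reg.PA
    have hPP : PP V (Subring.closure ((A : Set F) ∪ U)) T = PP V A T := by
      refine lo_eq hBV ?_ ?_
      · exact Subring.closure_mono (Set.union_subset_union_left _ hAA')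
      · rw [Subring.closure_le]
        rintro z (hz | hz)
        · have h3 : Subring.closure ((A : Set F) ∪ U) ≤ PP V A T := by
            rw [Subring.closure_le]
            rintro y (hy | hy)
            · exact le_lo _ _ (Subring.subset_closure (Or.inl hy))
            · exact hUP y hy
          exact h3 hz
        · exact le_lo _ _ (Subring.subset_closure (Or.inr hz))
    refine ⟨T, n, x, ⟨hst.fin, ?_, ?_⟩, ?_⟩
    · rw [hPP]
      exact hst.reg
    · obtain ⟨β, hβA, hβ, hβT, hβx⟩ := hst.den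
      exact ⟨β, hAA' hβA, by rw [hPP]; exact hβ, fun t ht => hAA' (hβT t ht),
        fun i => hAA' (hβx i)⟩
    · intro g hg
      rw [hPP]
      exact hgx g (Or.inl hg)
  · intro h G hG hG0
    have hpq : ∀ u : F, ∃ q ∈ A, q ≠ 0 ∧ u * q ∈ A := by
      intro u
      obtain ⟨a, ha, b, hb, hb0, rfl⟩ := hfr u
      exact ⟨b, hb, hb0, by rwa [inv_mul_cancel_right₀ hb0]⟩
    choose q hqA hq0 hq using hpq
    obtain ⟨T', n, x, hst, hgx⟩ := h (G ∪ q '' U) (hG.union (hU.image q)) (by
      rintro g (hg | ⟨u, -, rfl⟩)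
      · exact hG0 g hg
      · exact hq0 u)
    have hQA : ∏ u ∈ hU.toFinset, q u ∈ A := A.prod_mem fun u _ => hqA u
    have hQx : PMon (PP V (Subring.closure ((A : Set F) ∪ U)) T') x (∏ u ∈ hU.toFinset, q u) := by
      refine pmon_prod hst.reg.ne _ fun u hu => ?_
      exact (hgx (q u) (Or.inr ⟨u, hU.mem_toFinset.1 hu, rfl⟩)).1
    generalize hQdef : ∏ u ∈ hU.toFinset, q u = Q at hQA hQx
    have hQU : ∀ u ∈ U, Q * u ∈ A := by
      intro u hu
      rw [← hQdef, ← Finset.mul_prod_erase _ _ (hU.mem_toFinset.2 hu)]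
      have h4 : (q u * ∏ v ∈ hU.toFinset.erase u, q v) * u =
          (u * q u) * ∏ v ∈ hU.toFinset.erase u, q v := by
        ring
      rw [h4]
      exact A.mul_mem (hq u) (A.prod_mem fun v _ => hqA v)
    have key : ∀ z ∈ Subring.closure ((A : Set F) ∪ U), ∃ k : ℕ, Q ^ k * z ∈ A :=
      closure_pow hQA fun u hu => ⟨1, by rw [pow_one]; exact hQU u hu⟩
    have hcl : Subring.closure ((A : Set F) ∪ (T' ∪ U)) =
        Subring.closure ((Subring.closure ((A : Set F) ∪ U) : Set F) ∪ T') := by
      apply le_antisymm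
      · rw [Subring.closure_le]
        rintro y (hy | hy | hy)
        · exact Subring.subset_closure (Or.inl (hAA' hy))
        · exact Subring.subset_closure (Or.inr hy)
        · exact Subring.subset_closure (Or.inl (Subring.subset_closure (Or.inr hy)))
      · rw [Subring.closure_le]
        rintro y (hy | hy)
        · exact Subring.closure_mono (Set.union_subset_union_right _ Set.subset_union_right) hy
        · exact Subring.subset_closure (Or.inr (Or.inl hy))
    have hPP : PP V A (T' ∪ U) = PP V (Subring.closure ((A : Set F) ∪ U)) T' := by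
      change lo _ _ = lo _ _
      rw [hcl]
    obtain ⟨β, hβA, hβ, hβT, hβx⟩ := hst.den
    obtain ⟨k, hk⟩ := common_pow hQA key (Z := {β} ∪ (fun t => β * t) '' (T' ∪ U) ∪
        Set.range fun i => β * x i)
      (((Set.finite_singleton _).union ((hst.fin.union hU).image _)).union (Set.finite_range _)) (by
        rintro z ((rfl | ⟨t, ht | ht, rfl⟩) | ⟨i, rfl⟩)
        · exact hβA
        · exact hβT t ht
        · exact Subring.mul_mem _ hβA (Subring.subset_closure (Or.inr ht))
        · exact hβx i)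
    refine ⟨T' ∪ U, n, x, ⟨hst.fin.union hU, ?_, ?_⟩, ?_⟩
    · rw [hPP]
      exact hst.reg
    · refine ⟨Q ^ k * β, hk β (Or.inl (Or.inl rfl)), ?_, ?_, ?_⟩
      · rw [hPP]
        exact (hQx.pow hst.reg.ne k).mul hst.reg.ne hβ
      · intro t ht
        rw [mul_assoc]
        exact hk _ (Or.inl (Or.inr ⟨t, ht, rfl⟩))
      · intro i
        rw [mul_assoc]
        exact hk _ (Or.inr ⟨i, rfl⟩)
    · intro g hg
      rw [hPP]
      exact hgx g (Or.inl hg)

end Pool.Agent.Y67.DT
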